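import Mathlib

/-!
# Project SM: the tail of the error function
-/

set_option autoImplicit false

namespace Pool.Agent.J4H22.SM

open Filter Topology MeasureTheory Set

/-- the error function (the same term as `Erf` of helper39) -/
noncomputable def E0 (y : ℝ) : ℝ := 2 / √ Real.pi * ∫ u in (0 : ℝ)..y, Real.exp (-u ^ 2)

lemma ii (a b : ℝ) : IntervalIntegrable (fun u : ℝ => Real.exp (-u ^ 2)) volume a b :=
  Continuous.intervalIntegrable (by fun_prop) _ _

lemma E0_sub (x y : ℝ) : E0 y - E0 x = 2 / √ Real.pi * ∫ u in x..y, Real.exp (-u ^ 2) := by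
  unfold E0
  rw [← mul_sub, intervalIntegral.integral_interval_sub_left (ii _ _) (ii _ _)]

lemma cpos : 0 < 2 / √ Real.pi := by positivity

lemma E0_mono : Monotone E0 := by
  intro x y h
  rw [← sub_nonneg, E0_sub]
  apply mul_nonneg cpos.le
  exact intervalIntegral.integral_nonneg h fun u _ => (Real.exp_pos _).le

lemma E0_lim : Tendsto E0 atTop (𝓝 1) := by
  have h1 : IntegrableOn (fun u : ℝ => Real.exp (-u ^ 2)) (Ioi 0) := by
    have := (integrable_exp_neg_mul_sq (b := 1) one_pos).integrableOn (s := Ioi 0)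
    simpa using this
  have h2 := intervalIntegral_tendsto_integral_Ioi (0 : ℝ) h1 tendsto_id
  have h3 : ∫ u in Ioi (0 : ℝ), Real.exp (-u ^ 2) = √ Real.pi / 2 := by
    have := integral_gaussian_Ioi 1
    simpa using this
  rw [h3] at h2
  have h4 := h2.const_mul (2 / √ Real.pi)
  have h5 : 2 / √ Real.pi * (√ Real.pi / 2) = 1 := by
    have : √ Real.pi ≠ 0 := by positivity
    field_simp
  rw [h5] at h4
  exact h4

lemma E0_le (x : ℝ) : E0 x ≤ 1 := E0_mono.ge_of_tendsto E0_lim x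

theorem erf_up (x : ℝ) (hx : 0 ≤ x) : 1 - E0 x ≤ Real.exp (-x ^ 2) := by
  have key : ∀ y : ℝ, x ≤ y → E0 y - E0 x ≤ Real.exp (-x ^ 2) := by
    intro y hy
    rw [E0_sub]
    have e1 : ∫ u in x..y, Real.exp (-u ^ 2) = ∫ u in (0 : ℝ)..(y - x), Real.exp (-(u + x) ^ 2) := by
      rw [intervalIntegral.integral_comp_add_right (fun u => Real.exp (-u ^ 2))]
      simp
    have e2 : ∫ u in (0 : ℝ)..(y - x), Real.exp (-(u + x) ^ 2) ≤
        ∫ u in (0 : ℝ)..(y - x), Real.exp (-x ^ 2) * Real.exp (-u ^ 2) := by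
      apply intervalIntegral.integral_mono_on (by linarith)
      · exact Continuous.intervalIntegrable (by fun_prop) _ _
      · exact Continuous.intervalIntegrable (by fun_prop) _ _
      · intro u hu
        rw [← Real.exp_add]
        apply Real.exp_le_exp.2
        nlinarith [hu.1, mul_nonneg hu.1 hx]
    rw [intervalIntegral.integral_const_mul] at e2
    rw [e1]
    calc 2 / √ Real.pi * ∫ u in (0 : ℝ)..(y - x), Real.exp (-(u + x) ^ 2)
        ≤ 2 / √ Real.pi * (Real.exp (-x ^ 2) * ∫ u in (0 : ℝ)..(y - x), Real.exp (-u ^ 2)) :=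
          mul_le_mul_of_nonneg_left e2 cpos.le
      _ = Real.exp (-x ^ 2) * E0 (y - x) := by unfold E0; ring
      _ ≤ Real.exp (-x ^ 2) * 1 := mul_le_mul_of_nonneg_left (E0_le _) (Real.exp_pos _).le
      _ = Real.exp (-x ^ 2) := mul_one _
  have h1 : Tendsto (fun y => E0 y - E0 x) atTop (𝓝 (1 - E0 x)) := E0_lim.sub_const _
  exact le_of_tendsto h1 (eventually_atTop.2 ⟨x, key⟩)

theorem erf_lo (x : ℝ) (hx : 0 ≤ x) : Real.exp (-(x + 1) ^ 2) / 2 ≤ 1 - E0 x := by
  have h1 : E0 (x + 1) - E0 x ≤ 1 - E0 x := by linarith [E0_le (x + 1)]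
  refine le_trans ?_ h1
  rw [E0_sub]
  have h2 : ∫ _u in x..(x + 1), Real.exp (-(x + 1) ^ 2) ≤ ∫ u in x..(x + 1), Real.exp (-u ^ 2) := by
    apply intervalIntegral.integral_mono_on (by linarith)
    · exact Continuous.intervalIntegrable (by fun_prop) _ _
    · exact ii _ _
    · intro u hu
      apply Real.exp_le_exp.2
      nlinarith [hu.1, hu.2]
  rw [intervalIntegral.integral_const] at h2
  have h3 : 1 / 2 ≤ 2 / √ Real.pi := by
    have h4 : √ Real.pi ≤ 4 := by
      rw [show (4 : ℝ) = √ 16 by rw [show (16 : ℝ) = 4 ^ 2 by norm_num]; exact (Real.sqrt_sq (by norm_num)).symm]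
      exact Real.sqrt_le_sqrt (by linarith [Real.pi_le_four])
    rw [div_le_div_iff₀ (by norm_num) (by positivity)]
    linarith
  have h5 : Real.exp (-(x + 1) ^ 2) ≤ ∫ u in x..(x + 1), Real.exp (-u ^ 2) := by
    simpa using h2
  calc Real.exp (-(x + 1) ^ 2) / 2 = 1 / 2 * Real.exp (-(x + 1) ^ 2) := by ring
    _ ≤ 2 / √ Real.pi * ∫ u in x..(x + 1), Real.exp (-u ^ 2) := by
      apply mul_le_mul h3 h5 (Real.exp_pos _).le cpos.le

end Pool.Agent.J4H22.SM
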