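import Mathlib

/-!
# Project SM: counting (P1), (P2)
-/

set_option autoImplicit false

namespace Pool.Agent.J4H22.SM

open Finset

lemma card_const {H k : ℕ} (v : Fin H → ℤ) (w : ℤ) :
    (univ.filter fun g : Fin k → Fin H => ∀ i, v (g i) = w).card =
      (univ.filter fun h : Fin H => v h = w).card ^ k := by
  classical
  have : (univ.filter fun g : Fin k → Fin H => ∀ i, v (g i) = w) =
      Fintype.piFinset (fun _ : Fin k => univ.filter fun h : Fin H => v h = w) := by
    ext g
    simp [Fintype.mem_piFinset]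
  rw [this, Fintype.card_piFinset]
  simp

lemma card_eq_add {H : ℕ} (v : Fin H → ℤ) (w : ℤ) :
    ((univ.filter fun h : Fin H => v h = w).card : ℝ) =
      H - ((univ.filter fun h : Fin H => v h ≠ w).card : ℝ) := by
  have := Finset.card_filter_add_card_filter_not (s := (univ : Finset (Fin H))) (fun h => v h = w)
  rw [Finset.card_univ, Fintype.card_fin] at this
  rw [eq_sub_iff_add_eq]
  exact_mod_cast this

theorem p1 (H k : ℕ) (ε : ℝ) (v : Fin H → ℤ) (h0 : 0 ≤ ε) (h1 : ε ≤ 1) (hH : 1 ≤ H) (hk : 1 ≤ k)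
    (hv : ∀ w : ℤ, ε * H < ((univ.filter fun h => v h ≠ w).card : ℝ)) :
    ((univ.filter fun g : Fin k → Fin H => ∀ i j, v (g i) = v (g j)).card : ℝ) ≤
      (1 - ε) ^ (k - 1) * (H : ℝ) ^ k := by
  classical
  obtain ⟨k', rfl⟩ : ∃ k', k = k' + 1 := ⟨k - 1, by omega⟩
  have hsub : (univ.filter fun g : Fin (k' + 1) → Fin H => ∀ i j, v (g i) = v (g j)) ⊆
      (univ.image v).biUnion fun w => univ.filter fun g : Fin (k' + 1) → Fin H => ∀ i, v (g i) = w := by
    intro g hg
    rw [Finset.mem_filter] at hg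
    rw [Finset.mem_biUnion]
    refine ⟨v (g 0), Finset.mem_image_of_mem _ (Finset.mem_univ _), ?_⟩
    rw [Finset.mem_filter]
    exact ⟨Finset.mem_univ _, fun i => hg.2 i 0⟩
  have hc : ((univ.filter fun g : Fin (k' + 1) → Fin H => ∀ i j, v (g i) = v (g j)).card : ℝ) ≤
      ∑ w ∈ univ.image v, ((univ.filter fun h : Fin H => v h = w).card : ℝ) ^ (k' + 1) := by
    have := (Finset.card_le_card hsub).trans Finset.card_biUnion_le
    simp only [card_const] at this
    exact_mod_cast this
  have hn : ∀ w : ℤ, ((univ.filter fun h : Fin H => v h = w).card : ℝ) ≤ (1 - ε) * H := by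
    intro w
    rw [card_eq_add]
    linarith [hv w]
  have hsum : ∑ w ∈ univ.image v, ((univ.filter fun h : Fin H => v h = w).card : ℝ) = H := by
    have := Finset.card_eq_sum_card_image v (univ : Finset (Fin H))
    rw [Finset.card_univ, Fintype.card_fin] at this
    exact_mod_cast this.symm
  refine hc.trans ?_
  calc ∑ w ∈ univ.image v, ((univ.filter fun h : Fin H => v h = w).card : ℝ) ^ (k' + 1)
      ≤ ∑ w ∈ univ.image v, ((1 - ε) * H) ^ k' * ((univ.filter fun h : Fin H => v h = w).card : ℝ) := by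
        apply Finset.sum_le_sum
        intro w _
        rw [pow_succ]
        exact mul_le_mul_of_nonneg_right (pow_le_pow_left₀ (Nat.cast_nonneg _) (hn w) _)
          (Nat.cast_nonneg _)
    _ = (1 - ε) ^ (k' + 1 - 1) * (H : ℝ) ^ (k' + 1) := by
        rw [← Finset.mul_sum, hsum, mul_pow, Nat.add_sub_cancel, pow_succ (H : ℝ)]
        ring

theorem p2 (H k : ℕ) (ε : ℝ) (v : Fin H → ℤ) (w : ℤ) (h0 : 0 ≤ ε) (h1 : ε ≤ 1)
    (hv : ((univ.filter fun h => v h ≠ w).card : ℝ) ≤ ε * H) :
    (1 - ε) ^ k * (H : ℝ) ^ k ≤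
      ((univ.filter fun g : Fin k → Fin H => ∀ i j, v (g i) = v (g j)).card : ℝ) := by
  classical
  have hsub : (univ.filter fun g : Fin k → Fin H => ∀ i, v (g i) = w) ⊆
      (univ.filter fun g : Fin k → Fin H => ∀ i j, v (g i) = v (g j)) := by
    intro g hg
    rw [Finset.mem_filter] at hg ⊢
    exact ⟨hg.1, fun i j => by rw [hg.2 i, hg.2 j]⟩
  have h2 : ((univ.filter fun h : Fin H => v h = w).card : ℝ) ^ k ≤
      ((univ.filter fun g : Fin k → Fin H => ∀ i j, v (g i) = v (g j)).card : ℝ) := by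
    have := Finset.card_le_card hsub
    rw [card_const] at this
    exact_mod_cast this
  refine le_trans ?_ h2
  rw [← mul_pow]
  apply pow_le_pow_left₀
  · exact mul_nonneg (by linarith) (Nat.cast_nonneg _)
  · rw [card_eq_add]
    linarith

end Pool.Agent.J4H22.SM
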