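import Pool.Agent.J4H39.SM.Stm
import Pool.Agent.J4H22.SM.P0
import Pool.Agent.J4H22.SM.Erf0

/-!
# Project SM: (ERF), (P1), (P2)
-/

set_option autoImplicit false

namespace Pool.Agent.J4H22.SM

open Pool.Agent.J4H39.SM

theorem t_ERF : S_ERF := ⟨fun x hx => erf_up x hx, fun x hx => erf_lo x hx⟩

theorem t_P1 : S_P1 := fun H k ε v h0 h1 hH hk hv => p1 H k ε v h0 h1 hH hk hv

theorem t_P2 : S_P2 := fun H k ε v w h0 h1 hv => p2 H k ε v w h0 h1 hv

end Pool.Agent.J4H22.SM
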